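import Pool.Agent.Q204.LP.Near
import Pool.Agent.Results.MP_953b23_mp.EveryScale

/-! # From one PEPS near the ground state of one torus to one tensor for all tori -/

set_option autoImplicit false

open scoped BigOperators Matrix

noncomputable section

namespace Pool.Agent.Q204.LP

open Pool.Agent.Y738.PE (Tensor pepsX pepsN Close nrm bondG TransInv)
open Pool.Agent.TH235.PP Pool.Agent.Results.MP_953b23_mp.OverlapBoosting
  Pool.Agent.Results.MP_953b23_mp.ThermalCriterion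

theorem to_all (d : ℕ) (hd : 2 ≤ d) (Reg : Finset (ℤ × ℤ)) :
    ∃ r : ℕ, 100 ≤ r ∧ ∀ (R : ℕ) (h : BoxOp d R) (Δ ε : ℝ), 0 < ε → ε ≤ 1 →
      ∀ (m : ℕ) [NeZero m], (r : ℝ) / ε ≤ m → ∀ Ψ : (Site m → Fin d) → ℂ, normSq Ψ = 1 →
      IsGappedGround (ham h m) Δ Ψ → ∀ (D : ℕ) (ψ : (Site m → Fin d) → ℂ), IsPEPS D ψ →
      nr (ψ - Ψ) ≤ ε / 10 →
      ∃ A : Tensor d (bondG m D (ε / 2)), ((bondG m D (ε / 2) : ℕ) : ℝ) ≤ (m : ℝ) ^ 6 * (D : ℝ) ^ 4 ∧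
        ∀ (L : ℕ) [NeZero L], m ^ 5 ≤ L → nrm (pepsX A L) ≠ 0 ∧ Close Reg Ψ (pepsX A L) ε := by
  obtain ⟨r₁, hr₁, h1⟩ := Pool.Agent.Y738.PE.glob_region d hd Reg
  obtain ⟨r₂, hr₂, h2⟩ := close_near d Reg
  refine ⟨100 + 32 * r₁ + r₂, by omega, ?_⟩
  intro R h Δ ε hε hε1 m _ hm Ψ hΨ hg D ψ hψ hn
  have hr1' : (1 : ℝ) ≤ r₁ := by exact_mod_cast hr₁
  have hr2' : (1 : ℝ) ≤ r₂ := by exact_mod_cast hr₂
  rw [div_le_iff₀ hε] at hm
  push_cast at hm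
  have hm0 : (0 : ℝ) ≤ m := Nat.cast_nonneg m
  have hmε : (m : ℝ) * ε ≤ m := by nlinarith
  have hm1 : (r₁ : ℝ) ≤ m := by linarith
  have hm2 : (r₂ : ℝ) ≤ m := by linarith
  have hm100 : (100 : ℝ) ≤ m := by linarith
  have hm1' : r₁ ≤ m := by exact_mod_cast hm1
  have hm2' : r₂ ≤ m := by exact_mod_cast hm2
  have hm100' : 100 ≤ m := by exact_mod_cast hm100
  obtain ⟨C, hC⟩ := hψ
  have hCC : contract C = (pepsN C : (Site m → Fin d) → ℂ) := rfl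
  have hnn : nrm (ψ - Ψ) ≤ (ε / 10) ^ 2 := by
    have e : nrm (ψ - Ψ) = normSq (ψ - Ψ) := rfl
    rw [e, ← nr_sq]
    exact pow_le_pow_left₀ (nr_nonneg _) hn 2
  obtain ⟨g1, g2⟩ := h2 m hm2' Ψ hΨ (ti_of_gapped h Δ Ψ hg) ψ (ε / 10) (by positivity)
    (by linarith) hnn
  rw [hC, hCC] at g1 g2
  obtain ⟨A, hA⟩ := h1 (ε / 2) (by positivity) (by linarith) m (by
    rw [div_le_iff₀ (by positivity)]
    nlinarith) D C g1
  -- the number of repetitions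
  have hceil : ((⌈24 / (ε / 2)⌉₊ : ℕ) : ℝ) ≤ m / 2 := by
    have e1 := (Nat.ceil_lt_add_one (a := 24 / (ε / 2)) (by positivity)).le
    have e2 : 24 / (ε / 2) = 48 / ε := by field_simp; norm_num
    rw [e2] at e1 ⊢
    have e3 : 48 / ε + 1 ≤ m / 2 := by
      have : 1 ≤ 1 / ε := by rw [le_div_iff₀ hε]; linarith
      have e4 : 48 / ε + 1 ≤ 49 / ε := by
        have e5 : (49 : ℝ) / ε = 48 / ε + 1 / ε := by ring
        rw [e5]; linarith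
      refine e4.trans ?_
      rw [div_le_iff₀ hε]
      nlinarith
    linarith
  set M : ℕ := ⌈24 / (ε / 2)⌉₊ with hM
  refine ⟨A, ?_, ?_⟩
  · unfold bondG
    rw [← hM]
    push_cast
    have e1 : (m : ℝ) * M + 2 ≤ (m : ℝ) ^ 2 := by
      have := mul_le_mul_of_nonneg_left hceil hm0
      nlinarith
    have e0 : (0 : ℝ) ≤ (m : ℝ) * M + 2 := by positivity
    have e2 : (2 * ((m : ℝ) * M + 2)) ^ 2 ≤ (2 * (m : ℝ) ^ 2) ^ 2 :=
      pow_le_pow_left₀ (by positivity) (by linarith) 2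
    have e3 : (2 * (m : ℝ) ^ 2) ^ 2 ≤ (m : ℝ) ^ 6 := by
      have : (2 * (m : ℝ) ^ 2) ^ 2 = 4 * (m : ℝ) ^ 4 := by ring
      rw [this]
      have e4 : (m : ℝ) ^ 6 = (m : ℝ) ^ 2 * (m : ℝ) ^ 4 := by ring
      rw [e4]
      refine mul_le_mul_of_nonneg_right ?_ (by positivity)
      nlinarith
    exact mul_le_mul_of_nonneg_right (e2.trans e3) (by positivity)
  · intro L _ hL
    have hthr : r₁ + (m * M + 3) ^ 2 ≤ L := by
      refine le_trans ?_ hL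
      have e1 : ((r₁ + (m * M + 3) ^ 2 : ℕ) : ℝ) ≤ ((m ^ 5 : ℕ) : ℝ) := by
        push_cast
        have e2 : (m : ℝ) * M + 3 ≤ (m : ℝ) ^ 2 := by
          have := mul_le_mul_of_nonneg_left hceil hm0
          nlinarith
        have e3 : ((m : ℝ) * M + 3) ^ 2 ≤ ((m : ℝ) ^ 2) ^ 2 :=
          pow_le_pow_left₀ (by positivity) e2 2
        have e4 : (m : ℝ) + ((m : ℝ) ^ 2) ^ 2 ≤ (m : ℝ) ^ 5 := by
          have e5 : (m : ℝ) ^ 5 = m * (m : ℝ) ^ 4 := by ring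
          have e6 : ((m : ℝ) ^ 2) ^ 2 = (m : ℝ) ^ 4 := by ring
          rw [e5, e6]
          have e7 : (m : ℝ) ≤ (m : ℝ) ^ 4 := by
            calc (m : ℝ) = (m : ℝ) ^ 1 := (pow_one _).symm
              _ ≤ (m : ℝ) ^ 4 := pow_le_pow_right₀ (by linarith) (by norm_num)
          have e8 : (2 : ℝ) * (m : ℝ) ^ 4 ≤ m * (m : ℝ) ^ 4 :=
            mul_le_mul_of_nonneg_right (by linarith) (by positivity)
          linarith
        linarith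
      exact_mod_cast e1
    obtain ⟨k1, k2⟩ := hA L hthr
    refine ⟨k1, ?_⟩
    have := k2 m Ψ (5 * (ε / 10)) hm1' g2
    have e : ε / 2 + 5 * (ε / 10) = ε := by ring
    rwa [e] at this

/-- One size, low energy or overlap. -/
theorem one_size (d R : ℕ) (hd : 2 ≤ d) (h : BoxOp d (R + 1)) (hh : h.IsHermitian) (Δ : ℝ)
    (hΔ : 0 < Δ) (Reg : Finset (ℤ × ℤ)) :
    ∃ (C r : ℕ), 0 < r ∧ ∀ ε : ℝ, 0 < ε → ε ≤ 1 → ∀ (m : ℕ) [NeZero m], (r : ℝ) / ε ≤ m →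
      ∀ Ψ : (Site m → Fin d) → ℂ, normSq Ψ = 1 → IsGappedGround (ham h m) Δ Ψ →
      ∀ (a D₀ : ℕ) (X : (Site m → Fin a) → (Site m → Fin d) → ℂ), IsPurified D₀ X →
      0 < ∑ t, normSq (X t) → ∀ η : ℝ, 0 < η → η ≤ 1 →
      (η * ∑ t, normSq (X t) ≤ ∑ t, ‖ip Ψ (X t)‖ ^ 2 ∨
        ∑ t, (ip (X t) (ham h m *ᵥ X t)).re ≤
          (energy (ham h m) Ψ + Δ * (1 - η)) * ∑ t, normSq (X t)) →
      ∃ (D : ℕ) (A : Tensor d D), (D : ℝ) ≤ (D₀ : ℝ) ^ 4 * ((m : ℝ) / η) ^ C ∧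
        ∀ (L : ℕ) [NeZero L], m ^ 5 ≤ L → nrm (pepsX A L) ≠ 0 ∧ Close Reg Ψ (pepsX A L) ε := by
  obtain ⟨C, hC, hq⟩ := Pool.Agent.TH235.PQ.amp_all Pool.Agent.TH235.PQ.amp0 d R h hh Δ hΔ
  obtain ⟨r, hr, h1⟩ := to_all d hd Reg
  refine ⟨6 + 8 * ⌈C⌉₊, r, by omega, ?_⟩
  intro ε hε hε1 m _ hm Ψ hΨ hg a D₀ X hX hX0 η hη hη1 hor
  have hfid : η * ∑ t, normSq (X t) ≤ ∑ t, ‖ip Ψ (X t)‖ ^ 2 := by
    rcases hor with h1 | h1
    · exact h1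
    · exact Pool.Agent.Results.MP_953b23_mp.EveryScale.mixed_of_low hh hΔ hΨ hg h1
  obtain ⟨φ, e1, e2, e3⟩ :=
    Pool.Agent.Results.MP_953b23_mp.EveryScale.pure_of_mixed hX hη hη1 hX0 hfid
  have hr' : (100 : ℝ) ≤ r := by exact_mod_cast hr
  have hmε : (r : ℝ) ≤ m * ε := by rwa [div_le_iff₀ hε] at hm
  have hm0 : (0 : ℝ) ≤ m := Nat.cast_nonneg m
  have hm100 : (100 : ℝ) ≤ m := by nlinarith
  have hm2 : 2 ≤ m := by
    have : (2 : ℝ) ≤ m := by linarith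
    exact_mod_cast this
  obtain ⟨D, ψ, hD, hψ, herr⟩ := hq m hm2 Ψ hΨ hg D₀ φ e1 e2 η (ε / 10) hη e3 (by positivity)
    (by linarith)
  rw [Pool.Agent.Results.MP_953b23_mp.EveryScale.exp_eq_rpow hm2 hη (by positivity)] at hD
  obtain ⟨A, hA1, hA2⟩ := h1 (R + 1) h Δ ε hε hε1 m hm Ψ hΨ hg D ψ hψ herr
  refine ⟨_, A, hA1.trans ?_, hA2⟩
  -- the bond dimension
  have hmη : (1 : ℝ) ≤ m / η := by
    rw [le_div_iff₀ hη]; linarith
  have hb : (m : ℝ) / (η * (ε / 10)) ≤ ((m : ℝ) / η) ^ 2 := by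
    rw [div_pow, div_le_div_iff₀ (by positivity) (by positivity)]
    have : (1 : ℝ) * η ≤ m * (ε / 10) := by nlinarith
    calc (m : ℝ) * η ^ 2 = m * η * (1 * η) := by ring
      _ ≤ m * η * (m * (ε / 10)) := by
          refine mul_le_mul_of_nonneg_left this (by positivity)
      _ = (m : ℝ) ^ 2 * (η * (ε / 10)) := by ring
  have hb1 : 1 ≤ (m : ℝ) / (η * (ε / 10)) := by
    rw [le_div_iff₀ (by positivity)]
    nlinarith
  have hDb : (D : ℝ) ≤ D₀ * ((m : ℝ) / η) ^ (2 * ⌈C⌉₊) := by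
    refine hD.trans (mul_le_mul_of_nonneg_left ?_ (Nat.cast_nonneg _))
    calc ((m : ℝ) / (η * (ε / 10))) ^ C ≤ ((m : ℝ) / (η * (ε / 10))) ^ ((⌈C⌉₊ : ℕ) : ℝ) :=
          Real.rpow_le_rpow_of_exponent_le hb1 (Nat.le_ceil C)
      _ = ((m : ℝ) / (η * (ε / 10))) ^ (⌈C⌉₊) := Real.rpow_natCast _ _
      _ ≤ (((m : ℝ) / η) ^ 2) ^ (⌈C⌉₊) := pow_le_pow_left₀ (by positivity) hb _
      _ = ((m : ℝ) / η) ^ (2 * ⌈C⌉₊) := by rw [← pow_mul]
  have hm6 : (m : ℝ) ^ 6 ≤ ((m : ℝ) / η) ^ 6 := by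
    refine pow_le_pow_left₀ hm0 ?_ 6
    rw [le_div_iff₀ hη]
    nlinarith
  calc (m : ℝ) ^ 6 * (D : ℝ) ^ 4
      ≤ ((m : ℝ) / η) ^ 6 * (D₀ * ((m : ℝ) / η) ^ (2 * ⌈C⌉₊)) ^ 4 :=
        mul_le_mul hm6 (pow_le_pow_left₀ (Nat.cast_nonneg _) hDb 4) (by positivity)
          (by positivity)
    _ = (D₀ : ℝ) ^ 4 * ((m : ℝ) / η) ^ (6 + 8 * ⌈C⌉₊) := by
        rw [mul_pow, ← pow_mul, pow_add]
        ring

/-- One size, partition function. -/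
theorem one_size_thermal (d R : ℕ) (hd : 2 ≤ d) (h : BoxOp d (R + 1)) (hh : h.IsHermitian) (Δ : ℝ)
    (hΔ : 0 < Δ) (Reg : Finset (ℤ × ℤ)) :
    ∃ (C r : ℕ), 0 < r ∧ ∀ ε : ℝ, 0 < ε → ε ≤ 1 → ∀ (m : ℕ) [NeZero m], (r : ℝ) / ε ≤ m →
      ∀ Ψ : (Site m → Fin d) → ℂ, normSq Ψ = 1 → IsGappedGround (ham h m) Δ Ψ →
      ∀ (hH : (ham h m).IsHermitian) (β : ℝ), 0 ≤ β →
      ∃ (D : ℕ) (A : Tensor d D),
        (D : ℝ) ≤ (Real.exp β * m * partition hH (energy (ham h m) Ψ) β) ^ C ∧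
        ∀ (L : ℕ) [NeZero L], m ^ 5 ≤ L → nrm (pepsX A L) ≠ 0 ∧ Close Reg Ψ (pepsX A L) ε := by
  obtain ⟨C, hC, hq⟩ := Pool.Agent.TH235.PQ.therm_all Pool.Agent.TH235.PQ.therm0 d R h hh Δ hΔ
  obtain ⟨r, hr, h1⟩ := to_all d hd Reg
  refine ⟨6 + 8 * ⌈C⌉₊, r, by omega, ?_⟩
  intro ε hε hε1 m _ hm Ψ hΨ hg hH β hβ
  have hr' : (100 : ℝ) ≤ r := by exact_mod_cast hr
  have hmε : (r : ℝ) ≤ m * ε := by rwa [div_le_iff₀ hε] at hm
  have hm0 : (0 : ℝ) ≤ m := Nat.cast_nonneg m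
  have hm100 : (100 : ℝ) ≤ m := by nlinarith
  have hmpos : (0 : ℝ) < m := by linarith
  have hm2 : 2 ≤ m := by
    have : (2 : ℝ) ≤ m := by linarith
    exact_mod_cast this
  obtain ⟨D, ψ, hD, hψ, herr⟩ := hq m hm2 Ψ hΨ hg hH β (ε / 10) hβ (by positivity)
    (by linarith)
  obtain ⟨A, hA1, hA2⟩ := h1 (R + 1) h Δ ε hε hε1 m hm Ψ hΨ hg D ψ hψ herr
  refine ⟨_, A, hA1.trans ?_, hA2⟩
  obtain ⟨-, j0, e2⟩ := energy_le (Ψ := fun L => if hL : L = m then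
    (hL ▸ Ψ : (Site L → Fin d) → ℂ) else 0) (L := m) hH hΔ (by simpa using hΨ) (by simpa using hg)
  have e2' : hH.eigenvalues j0 = energy (ham h m) Ψ := by simpa using e2
  have hZ1 : 1 ≤ partition hH (energy (ham h m) Ψ) β := by
    unfold partition
    have h1 := Finset.single_le_sum (f := fun j => Real.exp (-(β * (hH.eigenvalues j -
      energy (ham h m) Ψ)))) (fun j _ => (Real.exp_pos _).le) (Finset.mem_univ j0)
    refine le_trans (le_of_eq ?_) h1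
    rw [e2']
    simp
  generalize partition hH (energy (ham h m) Ψ) β = Z at hD hZ1 ⊢
  have hZ0 : 0 < Z := by linarith
  have hβ1 : 1 ≤ Real.exp β := Real.one_le_exp hβ
  set Y : ℝ := Real.exp β * m * Z with hY
  have hYm : (m : ℝ) ≤ Y := by
    have e1 : (1 : ℝ) * m ≤ Real.exp β * m := mul_le_mul_of_nonneg_right hβ1 hm0
    have e2 : (Real.exp β * m) * 1 ≤ Real.exp β * m * Z :=
      mul_le_mul_of_nonneg_left hZ1 (by positivity)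
    rw [hY]; linarith
  have hY1 : 1 ≤ Y := by linarith
  have hY0 : 0 < Y := by linarith
  have hDb : (D : ℝ) ≤ Y ^ (2 * ⌈C⌉₊) := by
    refine hD.trans ?_
    have e1 : β + Real.log m + Real.log Z + Real.log (1 / (ε / 10)) ≤ 2 * Real.log Y := by
      have e3 : Real.log Y = β + Real.log m + Real.log Z := by
        rw [hY, Real.log_mul (by positivity) (by positivity), Real.log_mul (by positivity)
          (by positivity), Real.log_exp]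
      have e4 : Real.log (1 / (ε / 10)) ≤ Real.log Y := by
        refine Real.log_le_log (by positivity) ?_
        refine le_trans ?_ hYm
        rw [div_le_iff₀ (by positivity)]
        linarith
      rw [← e3]
      linarith
    have e5 : 0 ≤ Real.log Y := Real.log_nonneg hY1
    calc Real.exp (C * (β + Real.log m + Real.log Z + Real.log (1 / (ε / 10))))
        ≤ Real.exp (((⌈C⌉₊ : ℕ) : ℝ) * (2 * Real.log Y)) := by
          refine Real.exp_le_exp.2 ?_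
          calc C * (β + Real.log m + Real.log Z + Real.log (1 / (ε / 10)))
              ≤ C * (2 * Real.log Y) := mul_le_mul_of_nonneg_left e1 hC.le
            _ ≤ ((⌈C⌉₊ : ℕ) : ℝ) * (2 * Real.log Y) :=
              mul_le_mul_of_nonneg_right (Nat.le_ceil C) (by linarith)
      _ = Y ^ (2 * ⌈C⌉₊) := by
          have e6 : ((⌈C⌉₊ : ℕ) : ℝ) * (2 * Real.log Y) =
              ((2 * ⌈C⌉₊ : ℕ) : ℝ) * Real.log Y := by push_cast; ring
          rw [e6, Real.exp_nat_mul, Real.exp_log hY0]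
  have hm6 : (m : ℝ) ^ 6 ≤ Y ^ 6 := pow_le_pow_left₀ hm0 hYm 6
  calc (m : ℝ) ^ 6 * (D : ℝ) ^ 4
      ≤ Y ^ 6 * (Y ^ (2 * ⌈C⌉₊)) ^ 4 :=
        mul_le_mul hm6 (pow_le_pow_left₀ (Nat.cast_nonneg _) hDb 4) (by positivity)
          (by positivity)
    _ = Y ^ (6 + 8 * ⌈C⌉₊) := by
        rw [← pow_mul, pow_add]
        ring

end Pool.Agent.Q204.LP
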