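import Pool.Agent.Q204.LP.Core

/-! # Families -/

set_option autoImplicit false

open scoped BigOperators Matrix

noncomputable section

namespace Pool.Agent.Q204.LP

open Pool.Agent.Y738.PE (Tensor pepsX pepsN Close nrm bondG TransInv PolyConv EffAll close_trans)
open Pool.Agent.TH235.PP Pool.Agent.Results.MP_953b23_mp.OverlapBoosting
  Pool.Agent.Results.MP_953b23_mp.ThermalCriterion

/-- single tensors at polynomially many sizes -/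
def Sizes {d : ℕ} (Reg : Finset (ℤ × ℤ)) (Ψ : ∀ L : ℕ, (Site L → Fin d) → ℂ) : Prop :=
  ∃ c k r : ℕ, ∀ ε : ℝ, 0 < ε → ε ≤ 1 → ∀ n : ℕ, (r : ℝ) / ε ≤ n → 0 < n →
    ∃ (m : ℕ) (_ : NeZero m) (D : ℕ) (A : Tensor d D), n ≤ m ∧ m ≤ c * n ^ k ∧ D ≤ c * n ^ k ∧
      ∀ (L : ℕ) [NeZero L], m ^ 5 ≤ L → nrm (pepsX A L) ≠ 0 ∧ Close Reg (Ψ m) (pepsX A L) ε

/-- one tensor, in terms of the scale of convergence -/
def Scale {d : ℕ} (Reg : Finset (ℤ × ℤ)) (Ψ : ∀ L : ℕ, (Site L → Fin d) → ℂ) : Prop :=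
  ∃ K : ℕ, ∀ ε : ℝ, 0 < ε → ε ≤ 1 → ∀ n : ℕ, 1 / ε ≤ n →
    (∀ (L L' : ℕ) [NeZero L] [NeZero L'], n ≤ L → n ≤ L' → Close Reg (Ψ L) (Ψ L') ε) →
    ∃ (D : ℕ) (A : Tensor d D), D ≤ K * n ^ K ∧
      ∀ (L : ℕ) [NeZero L], K * n ^ K ≤ L → nrm (pepsX A L) ≠ 0 ∧
        Close Reg (Ψ L) (pepsX A L) (2 * ε)

theorem scale_of_sizes {d : ℕ} {Reg : Finset (ℤ × ℤ)} {Ψ : ∀ L : ℕ, (Site L → Fin d) → ℂ}
    (h : Sizes Reg Ψ) : Scale Reg Ψ := by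
  obtain ⟨c, k, r, h⟩ := h
  -- n' = (r + 1) n
  set K₀ : ℕ := (c + 1) * (r + 1) ^ k with hK₀
  refine ⟨K₀ ^ 5 + 5 * k + 1, ?_⟩
  intro ε hε hε1 n hn hconv
  have hn1 : (1 : ℝ) ≤ n := by
    refine le_trans ?_ hn
    rw [le_div_iff₀ hε]; linarith
  have hn1' : 1 ≤ n := by exact_mod_cast hn1
  obtain ⟨m, hm, D, A, h1, h2, h3, h4⟩ := h ε hε hε1 ((r + 1) * n) (by
    rw [div_le_iff₀ hε]
    rw [div_le_iff₀ hε] at hn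
    push_cast
    have hr0 : (0 : ℝ) ≤ r := Nat.cast_nonneg r
    nlinarith) (Nat.mul_pos (Nat.succ_pos r) (by omega))
  have hK₀1 : 1 ≤ K₀ := Nat.mul_pos (Nat.succ_pos c) (pow_pos (Nat.succ_pos r) k)
  have hb : c * ((r + 1) * n) ^ k ≤ K₀ * n ^ k := by
    rw [mul_pow, ← mul_assoc]
    exact Nat.mul_le_mul_right _ (Nat.mul_le_mul_right _ (Nat.le_succ c))
  have hm5 : m ^ 5 ≤ K₀ ^ 5 * n ^ (5 * k) := by
    calc m ^ 5 ≤ (K₀ * n ^ k) ^ 5 := Nat.pow_le_pow_left (h2.trans hb) 5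
      _ = K₀ ^ 5 * n ^ (5 * k) := by rw [mul_pow, ← pow_mul, mul_comm k 5]
  have hK5 : K₀ ≤ K₀ ^ 5 := Nat.le_self_pow (by norm_num) K₀
  have hbig : K₀ ^ 5 * n ^ (5 * k) ≤ (K₀ ^ 5 + 5 * k + 1) * n ^ (K₀ ^ 5 + 5 * k + 1) :=
    Nat.mul_le_mul (by omega) (Nat.pow_le_pow_right hn1' (by omega))
  have hnm : n ≤ m := le_trans (Nat.le_mul_of_pos_left n (Nat.succ_pos r)) h1
  refine ⟨D, A, ?_, ?_⟩
  · refine (h3.trans hb).trans (le_trans ?_ hbig)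
    exact Nat.mul_le_mul hK5 (Nat.pow_le_pow_right hn1' (by omega))
  · intro L _ hL
    have hL5 : m ^ 5 ≤ L := (hm5.trans hbig).trans hL
    have hmL : m ≤ L := le_trans (Nat.le_self_pow (by norm_num) m) hL5
    obtain ⟨k1, k2⟩ := h4 L hL5
    refine ⟨k1, ?_⟩
    have k3 := close_trans (hconv L m (hnm.trans hmL) hnm) k2
    have e : ε + ε = 2 * ε := by ring
    rwa [e] at k3

theorem eff_of_scale {d : ℕ} {Reg : Finset (ℤ × ℤ)} {Ψ : ∀ L : ℕ, (Site L → Fin d) → ℂ}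
    (h : Scale Reg Ψ) (hc : PolyConv Reg Ψ) : EffAll Reg Ψ := by
  obtain ⟨K, h⟩ := h
  obtain ⟨c₁, k₁, hc⟩ := hc
  refine ⟨K * ((c₁ + 2) * 2 ^ (k₁ + 1)) ^ K, (k₁ + 1) * K, ?_⟩
  intro ε hε hε1
  have hε2 : 0 < ε / 2 := by positivity
  have hx2 : 1 ≤ 1 / (ε / 2) := by rw [le_div_iff₀ hε2]; linarith
  have hx20 : 0 < 1 / (ε / 2) := by linarith
  set n : ℕ := ⌈((c₁ : ℝ) + 1) * (1 / (ε / 2)) ^ (k₁ + 1)⌉₊ with hn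
  have hc0 : (0 : ℝ) ≤ c₁ := Nat.cast_nonneg _
  have hpow : 1 ≤ (1 / (ε / 2)) ^ (k₁ + 1) := one_le_pow₀ hx2
  have hn1 : ((c₁ : ℝ) + 1) * (1 / (ε / 2)) ^ (k₁ + 1) ≤ n := Nat.le_ceil _
  have hn2 : (n : ℝ) ≤ ((c₁ : ℝ) + 2) * (1 / (ε / 2)) ^ (k₁ + 1) := by
    have := (Nat.ceil_lt_add_one (a := ((c₁ : ℝ) + 1) * (1 / (ε / 2)) ^ (k₁ + 1))
      (by positivity)).le
    rw [← hn] at this
    nlinarith
  have hn3 : 1 / (ε / 2) ≤ n := by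
    refine le_trans ?_ hn1
    have : 1 / (ε / 2) ≤ (1 / (ε / 2)) ^ (k₁ + 1) := by
      calc 1 / (ε / 2) = (1 / (ε / 2)) ^ 1 := (pow_one _).symm
        _ ≤ (1 / (ε / 2)) ^ (k₁ + 1) := pow_le_pow_right₀ hx2 (by omega)
    nlinarith
  have hn4 : (c₁ : ℝ) * (1 / (ε / 2)) ^ k₁ ≤ n := by
    refine le_trans ?_ hn1
    have : (1 / (ε / 2)) ^ k₁ ≤ (1 / (ε / 2)) ^ (k₁ + 1) := pow_le_pow_right₀ hx2 (by omega)
    nlinarith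
  obtain ⟨D, A, h1, h2⟩ := h (ε / 2) hε2 (by linarith) n hn3 (by
    intro L L' _ _ hL hL'
    have hL2 : (n : ℝ) ≤ L := by exact_mod_cast hL
    have hL2' : (n : ℝ) ≤ L' := by exact_mod_cast hL'
    exact hc (ε / 2) hε2 (by linarith) L L' (hn4.trans hL2) (hn4.trans hL2'))
  have hbound : ((K * n ^ K : ℕ) : ℝ) ≤
      ((K * ((c₁ + 2) * 2 ^ (k₁ + 1)) ^ K : ℕ) : ℝ) * (1 / ε) ^ ((k₁ + 1) * K) := by
    push_cast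
    have e1 : (n : ℝ) ≤ (((c₁ : ℝ) + 2) * 2 ^ (k₁ + 1)) * (1 / ε) ^ (k₁ + 1) := by
      refine hn2.trans (le_of_eq ?_)
      have : 1 / (ε / 2) = 2 * (1 / ε) := by field_simp
      rw [this, mul_pow]
      ring
    have e2 : (n : ℝ) ^ K ≤ ((((c₁ : ℝ) + 2) * 2 ^ (k₁ + 1)) * (1 / ε) ^ (k₁ + 1)) ^ K :=
      pow_le_pow_left₀ (Nat.cast_nonneg _) e1 K
    rw [mul_pow, ← pow_mul] at e2
    calc (K : ℝ) * (n : ℝ) ^ K ≤ K * ((((c₁ : ℝ) + 2) * 2 ^ (k₁ + 1)) ^ K *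
        (1 / ε) ^ ((k₁ + 1) * K)) := mul_le_mul_of_nonneg_left e2 (Nat.cast_nonneg _)
      _ = _ := by ring
  refine ⟨D, A, le_trans (by exact_mod_cast h1) hbound, ?_⟩
  intro L _ hL
  obtain ⟨k1, k2⟩ := h2 L (by
    have : ((K * n ^ K : ℕ) : ℝ) ≤ (L : ℝ) := hbound.trans hL
    exact_mod_cast this)
  refine ⟨k1, ?_⟩
  have e : 2 * (ε / 2) = ε := by ring
  rwa [e] at k2

end Pool.Agent.Q204.LP
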