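import Pool.Agent.Q204.LP.Fam

/-! # Families: low energy or partition functions -/

set_option autoImplicit false

open scoped BigOperators Matrix

noncomputable section

namespace Pool.Agent.Q204.LP

open Pool.Agent.Y738.PE (Tensor pepsX pepsN Close nrm bondG TransInv PolyConv EffAll close_trans)
open Pool.Agent.TH235.PP Pool.Agent.Results.MP_953b23_mp.OverlapBoosting
  Pool.Agent.Results.MP_953b23_mp.ThermalCriterion

/-- For every `n` there are a size `m` between `n` and `c n^k` and a locally purified mixed state of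
bond dimension at most `c n^k` on the torus of this size whose energy is at most
`E₀ + Δ (1 - 1 / (c n^k))`. -/
def LowEnergySizes {d R : ℕ} (h : BoxOp d R) (Δ : ℝ) (Ψ : ∀ L : ℕ, (Site L → Fin d) → ℂ) : Prop :=
  ∃ c k : ℕ, ∀ n : ℕ, 0 < n → ∃ (m : ℕ) (_ : NeZero m) (a D₀ : ℕ)
    (X : (Site m → Fin a) → (Site m → Fin d) → ℂ),
    n ≤ m ∧ m ≤ c * n ^ k ∧ D₀ ≤ c * n ^ k ∧ IsPurified D₀ X ∧ 0 < ∑ t, normSq (X t) ∧
      ∑ t, (ip (X t) (ham h m *ᵥ X t)).re ≤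
        (energy (ham h m) (Ψ m) + Δ * (1 - 1 / ((c * n ^ k : ℕ) : ℝ))) * ∑ t, normSq (X t)

/-- For every `n` there are a size `m` between `n` and `c n^k` and a `β ≥ 0` with `e^β ≤ c n^k`
at which the partition function `Tr exp (-β (H_m - E₀))` is at most `c n^k`. -/
def ThermalSizes {d R : ℕ} (h : BoxOp d R) (Ψ : ∀ L : ℕ, (Site L → Fin d) → ℂ) : Prop :=
  ∃ c k : ℕ, ∀ n : ℕ, 0 < n → ∃ (m : ℕ) (_ : NeZero m), n ≤ m ∧ m ≤ c * n ^ k ∧
    ∀ hH : (ham h m).IsHermitian, ∃ β : ℝ, 0 ≤ β ∧ Real.exp β ≤ ((c * n ^ k : ℕ) : ℝ) ∧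
      partition hH (energy (ham h m) (Ψ m)) β ≤ ((c * n ^ k : ℕ) : ℝ)

lemma nat_bound (c k L₀ n e : ℕ) (hn : 0 < n) :
    (c * (n + L₀) ^ k) ^ e ≤ (c * (L₀ + 1) ^ k) ^ e * n ^ (k * e) := by
  have h1 : n + L₀ ≤ (L₀ + 1) * n := by nlinarith
  have h2 : c * (n + L₀) ^ k ≤ (c * (L₀ + 1) ^ k) * n ^ k := by
    calc c * (n + L₀) ^ k ≤ c * ((L₀ + 1) * n) ^ k :=
          Nat.mul_le_mul_left _ (Nat.pow_le_pow_left h1 k)
      _ = (c * (L₀ + 1) ^ k) * n ^ k := by rw [mul_pow]; ring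
  calc (c * (n + L₀) ^ k) ^ e ≤ ((c * (L₀ + 1) ^ k) * n ^ k) ^ e := Nat.pow_le_pow_left h2 e
    _ = (c * (L₀ + 1) ^ k) ^ e * n ^ (k * e) := by rw [mul_pow, ← pow_mul]

theorem sizes_of_low {d R : ℕ} (hd : 2 ≤ d) {h : BoxOp d R} {Δ : ℝ}
    {Ψ : ∀ L : ℕ, (Site L → Fin d) → ℂ} (hF : GappedFamily h Δ Ψ) (hL : LowEnergySizes h Δ Ψ)
    (Reg : Finset (ℤ × ℤ)) : Sizes Reg Ψ := by
  obtain ⟨R', rfl⟩ : ∃ R', R = R' + 1 := ⟨R - 1, by have := hF.range_pos; omega⟩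
  obtain ⟨C, r, hr, hone⟩ := one_size d R' hd h hF.herm Δ hF.gap_pos Reg
  obtain ⟨L₀, hL₀⟩ := hF.ground
  obtain ⟨c, k, hlow⟩ := hL
  refine ⟨(c * (L₀ + 1) ^ k) ^ (4 + 2 * C), k * (4 + 2 * C), r, ?_⟩
  intro ε hε hε1 n hn hn0
  obtain ⟨m, hm, a, D₀, X, h1, h2, h3, h4, h5, h6⟩ := hlow (n + L₀) (by omega)
  obtain ⟨hΨ1, hg⟩ := hL₀ m (by omega)
  set q : ℕ := c * (n + L₀) ^ k with hq
  have hq1 : 1 ≤ q := by omega
  have hq1' : (1 : ℝ) ≤ q := by exact_mod_cast hq1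
  have hmn : (n : ℝ) ≤ m := by
    have : n ≤ m := by omega
    exact_mod_cast this
  obtain ⟨D, A, hD, hA⟩ := hone ε hε hε1 m (hn.trans hmn) (Ψ m) hΨ1 hg a D₀ X h4 h5 (1 / (q : ℝ))
    (by positivity) (by rw [div_le_one (by positivity)]; exact hq1') (Or.inr h6)
  have hnb := nat_bound c k L₀ n (4 + 2 * C) hn0
  refine ⟨m, hm, D, A, by omega, ?_, ?_, hA⟩
  · refine le_trans (h2.trans ?_) hnb
    exact Nat.le_self_pow (by omega) q
  · refine le_trans ?_ hnb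
    have hmq : (m : ℝ) ≤ q := by exact_mod_cast h2
    have hDq : (D₀ : ℝ) ≤ q := by exact_mod_cast h3
    have e1 : (m : ℝ) / (1 / (q : ℝ)) ≤ (q : ℝ) ^ 2 := by
      rw [div_div_eq_mul_div, div_one, sq]
      exact mul_le_mul_of_nonneg_right hmq (by positivity)
    have e2 : (D : ℝ) ≤ ((q ^ (4 + 2 * C) : ℕ) : ℝ) := by
      refine hD.trans ?_
      push_cast
      rw [pow_add, pow_mul]
      exact mul_le_mul (pow_le_pow_left₀ (Nat.cast_nonneg _) hDq 4)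
        (pow_le_pow_left₀ (by positivity) e1 C) (by positivity) (by positivity)
    exact_mod_cast e2

theorem sizes_of_thermal {d R : ℕ} (hd : 2 ≤ d) {h : BoxOp d R} {Δ : ℝ}
    {Ψ : ∀ L : ℕ, (Site L → Fin d) → ℂ} (hF : GappedFamily h Δ Ψ) (hL : ThermalSizes h Ψ)
    (Reg : Finset (ℤ × ℤ)) : Sizes Reg Ψ := by
  obtain ⟨R', rfl⟩ : ∃ R', R = R' + 1 := ⟨R - 1, by have := hF.range_pos; omega⟩
  obtain ⟨C, r, hr, hone⟩ := one_size_thermal d R' hd h hF.herm Δ hF.gap_pos Reg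
  obtain ⟨L₀, hL₀⟩ := hF.ground
  obtain ⟨c, k, hlow⟩ := hL
  refine ⟨(c * (L₀ + 1) ^ k) ^ (1 + 3 * C), k * (1 + 3 * C), r, ?_⟩
  intro ε hε hε1 n hn hn0
  obtain ⟨m, hm, h1, h2, h3⟩ := hlow (n + L₀) (by omega)
  obtain ⟨hΨ1, hg⟩ := hL₀ m (by omega)
  have hH := ham_herm (L := m) h hF.herm
  obtain ⟨β, hβ, h4, h5⟩ := h3 hH
  set q : ℕ := c * (n + L₀) ^ k with hq
  have hq1 : 1 ≤ q := by omega
  have hq1' : (1 : ℝ) ≤ q := by exact_mod_cast hq1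
  have hmn : (n : ℝ) ≤ m := by
    have : n ≤ m := by omega
    exact_mod_cast this
  obtain ⟨D, A, hD, hA⟩ := hone ε hε hε1 m (hn.trans hmn) (Ψ m) hΨ1 hg hH β hβ
  have hnb := nat_bound c k L₀ n (1 + 3 * C) hn0
  refine ⟨m, hm, D, A, by omega, ?_, ?_, hA⟩
  · refine le_trans (h2.trans ?_) hnb
    exact Nat.le_self_pow (by omega) q
  · refine le_trans ?_ hnb
    have hmq : (m : ℝ) ≤ q := by exact_mod_cast h2
    have hZ0 : 0 ≤ partition hH (energy (ham h m) (Ψ m)) β := by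
      unfold partition
      exact Finset.sum_nonneg fun j _ => (Real.exp_pos _).le
    have e1 : Real.exp β * m * partition hH (energy (ham h m) (Ψ m)) β ≤ (q : ℝ) ^ 3 := by
      have e3 : (q : ℝ) ^ 3 = q * q * q := by ring
      rw [e3]
      exact mul_le_mul (mul_le_mul h4 hmq (Nat.cast_nonneg _) (Nat.cast_nonneg _)) h5 hZ0
        (by positivity)
    have e2 : (D : ℝ) ≤ ((q ^ (1 + 3 * C) : ℕ) : ℝ) := by
      refine hD.trans ?_
      push_cast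
      refine (pow_le_pow_left₀ (by positivity) e1 C).trans ?_
      rw [← pow_mul]
      exact pow_le_pow_right₀ hq1' (by omega)
    exact_mod_cast e2

theorem thermal_of_few {d R : ℕ} {h : BoxOp d R} {Δ : ℝ}
    {Ψ : ∀ L : ℕ, (Site L → Fin d) → ℂ} (hF : GappedFamily h Δ Ψ) {C : ℝ}
    (hS : FewStates h Ψ 1 C) : ThermalSizes h Ψ := by
  obtain ⟨C', L₀, hP⟩ := few_to_small hF hS
  set K : ℕ := ⌈C'⌉₊ + 1 with hK
  refine ⟨(L₀ + 1) ^ K, K, ?_⟩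
  intro n hn
  have hb : n + L₀ ≤ (L₀ + 1) * n := by nlinarith
  have hpos : 0 < n + L₀ := by omega
  have hpow : (n + L₀) ^ K ≤ (L₀ + 1) ^ K * n ^ K := by
    calc (n + L₀) ^ K ≤ ((L₀ + 1) * n) ^ K := Nat.pow_le_pow_left hb K
      _ = _ := mul_pow _ _ _
  refine ⟨n + L₀, ⟨by omega⟩, by omega, ?_, ?_⟩
  · exact le_trans (Nat.le_self_pow (by omega) _) hpow
  · intro hH
    haveI : NeZero (n + L₀) := ⟨by omega⟩
    obtain ⟨β, hβ0, hβ, hZ⟩ := hP (n + L₀) (by omega) hH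
    have hl0 : 0 ≤ Real.log ((n + L₀ : ℕ) : ℝ) := Real.log_nonneg (by exact_mod_cast hpos)
    have h1 : Real.exp (C' * Real.log ((n + L₀ : ℕ) : ℝ) ^ 1) ≤ (((n + L₀) ^ K : ℕ) : ℝ) := by
      rw [pow_one]
      have e1 : C' * Real.log ((n + L₀ : ℕ) : ℝ) ≤ ((K : ℕ) : ℝ) * Real.log ((n + L₀ : ℕ) : ℝ) := by
        refine mul_le_mul_of_nonneg_right ?_ hl0
        rw [hK]; push_cast
        have := Nat.le_ceil C'
        linarith
      refine (Real.exp_le_exp.2 e1).trans (le_of_eq ?_)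
      rw [Real.exp_nat_mul, Real.exp_log (by exact_mod_cast hpos)]
      push_cast
      ring
    have h2 : (((n + L₀) ^ K : ℕ) : ℝ) ≤ (((L₀ + 1) ^ K * n ^ K : ℕ) : ℝ) := by exact_mod_cast hpow
    exact ⟨β, hβ0, (Real.exp_le_exp.2 hβ).trans (h1.trans h2), hZ.trans (h1.trans h2)⟩

end Pool.Agent.Q204.LP
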