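import Pool.Agent.Y738.PE.Glob3
import Pool.Agent.TH235.PP.Spec
import Pool.Agent.TH235.PP.Defs

/-! # Norm-close vectors have close reduced states -/

set_option autoImplicit false

open scoped BigOperators ComplexConjugate Classical

noncomputable section

namespace Pool.Agent.Q204.LP

open Pool.Agent.Y738.PE

section form

variable {d L r : ℕ} [NeZero L]

lemma nrm_comb (t : ℝ) (b δ : Conf d L → ℂ) :
    nrm (fun s => (t : ℂ) * b s + ((t⁻¹ : ℝ) : ℂ) * δ s) +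
      nrm (fun s => (t : ℂ) * b s - ((t⁻¹ : ℝ) : ℂ) * δ s) =
      2 * (t ^ 2 * nrm b + (t⁻¹) ^ 2 * nrm δ) := by
  unfold nrm
  rw [Finset.mul_sum, Finset.mul_sum, ← Finset.sum_add_distrib, ← Finset.sum_add_distrib,
    Finset.mul_sum]
  refine Finset.sum_congr rfl fun s _ => ?_
  have h := parallelogram_law_with_norm ℝ ((t : ℂ) * b s) (((t⁻¹ : ℝ) : ℂ) * δ s)
  have e1 : ‖(t : ℂ) * b s‖ ^ 2 = t ^ 2 * ‖b s‖ ^ 2 := by
    rw [norm_mul, mul_pow, Complex.norm_real, Real.norm_eq_abs, sq_abs]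
  have e2 : ‖((t⁻¹ : ℝ) : ℂ) * δ s‖ ^ 2 = (t⁻¹) ^ 2 * ‖δ s‖ ^ 2 := by
    rw [norm_mul, mul_pow, Complex.norm_real, Real.norm_eq_abs, sq_abs]
  rw [← e1, ← e2]
  nlinarith [h]

lemma expec_split (v : Site L) (B : BConf d r → BConf d r → ℂ) (b δ : Conf d L → ℂ) (t : ℝ)
    (ht : t ≠ 0) :
    expec (fun s => b s + δ s) v B - expec b v B = expec δ v B +
      (1 / 2 : ℂ) * (expec (fun s => (t : ℂ) * b s + ((t⁻¹ : ℝ) : ℂ) * δ s) v B -
        expec (fun s => (t : ℂ) * b s - ((t⁻¹ : ℝ) : ℂ) * δ s) v B) := by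
  unfold expec
  rw [← Finset.sum_sub_distrib, ← Finset.sum_sub_distrib, Finset.mul_sum,
    ← Finset.sum_add_distrib]
  refine Finset.sum_congr rfl fun s _ => ?_
  rw [← Finset.sum_sub_distrib, ← Finset.sum_sub_distrib, Finset.mul_sum,
    ← Finset.sum_add_distrib]
  refine Finset.sum_congr rfl fun τ _ => ?_
  have htc : (t : ℂ) ≠ 0 := by exact_mod_cast ht
  simp only [map_add, map_sub, map_mul, Complex.conj_ofReal, Complex.ofReal_inv, map_inv₀]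
  field_simp
  ring

/-- expectations of nearby vectors -/
lemma expec_near (hr : r ≤ L) (v : Site L) (B : BConf d r → BConf d r → ℂ) (hB : Contr B)
    (b δ : Conf d L → ℂ) (x : ℝ) (hx : 0 < x) (hb : nrm b = 1) (hδ : nrm δ ≤ x ^ 2) :
    ‖expec (fun s => b s + δ s) v B - expec b v B‖ ≤ x ^ 2 + 2 * x := by
  have hsx : 0 < Real.sqrt x := Real.sqrt_pos.2 hx
  rw [expec_split v B b δ (Real.sqrt x) hsx.ne']
  have hbd := fun (f : Conf d L → ℂ) => Pool.Agent.Y65.PE.bound d L r hr f v B hB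
  have h1 := hbd δ
  have h2 := hbd (fun s => ((Real.sqrt x : ℝ) : ℂ) * b s + (((Real.sqrt x)⁻¹ : ℝ) : ℂ) * δ s)
  have h3 := hbd (fun s => ((Real.sqrt x : ℝ) : ℂ) * b s - (((Real.sqrt x)⁻¹ : ℝ) : ℂ) * δ s)
  have h4 := nrm_comb (Real.sqrt x) b δ
  have h5 : (Real.sqrt x) ^ 2 = x := Real.sq_sqrt hx.le
  have h6 : ((Real.sqrt x)⁻¹) ^ 2 = x⁻¹ := by rw [inv_pow, h5]
  rw [h5, h6, hb] at h4
  have h7 : x⁻¹ * nrm δ ≤ x := by
    rw [inv_mul_le_iff₀ hx]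
    nlinarith [hδ]
  refine (norm_add_le _ _).trans ?_
  rw [norm_mul]
  have h8 : ‖(1 / 2 : ℂ)‖ = 1 / 2 := by norm_num
  rw [h8]
  have h9 := norm_sub_le
    (expec (fun s => ((Real.sqrt x : ℝ) : ℂ) * b s + (((Real.sqrt x)⁻¹ : ℝ) : ℂ) * δ s) v B)
    (expec (fun s => ((Real.sqrt x : ℝ) : ℂ) * b s - (((Real.sqrt x)⁻¹ : ℝ) : ℂ) * δ s) v B)
  linarith

end form

lemma nrm_add_near {d L : ℕ} [NeZero L] (b δ : Conf d L → ℂ) (x : ℝ) (hx : 0 < x)
    (hb : nrm b = 1) (hδ : nrm δ ≤ x ^ 2) :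
    |nrm (fun s => b s + δ s) - 1| ≤ x ^ 2 + 2 * x := by
  rw [← hb]
  have key : ∀ s, |‖b s + δ s‖ ^ 2 - ‖b s‖ ^ 2| ≤ ‖δ s‖ ^ 2 + (x * ‖b s‖ ^ 2 + x⁻¹ * ‖δ s‖ ^ 2) := by
    intro s
    have h1 : ‖b s + δ s‖ ≤ ‖b s‖ + ‖δ s‖ := norm_add_le _ _
    have h2 : ‖b s‖ - ‖δ s‖ ≤ ‖b s + δ s‖ := by
      have := norm_sub_le (b s + δ s) (δ s)
      rw [add_sub_cancel_right] at this
      linarith
    have h3 : ‖δ s‖ - ‖b s‖ ≤ ‖b s + δ s‖ := by
      have := norm_sub_le (b s + δ s) (b s)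
      rw [add_sub_cancel_left] at this
      linarith
    have hb0 := norm_nonneg (b s)
    have hd0 := norm_nonneg (δ s)
    have hc0 := norm_nonneg (b s + δ s)
    have h4 : 2 * (‖b s‖ * ‖δ s‖) ≤ x * ‖b s‖ ^ 2 + x⁻¹ * ‖δ s‖ ^ 2 := by
      have e : x * ‖b s‖ ^ 2 + x⁻¹ * ‖δ s‖ ^ 2 - 2 * (‖b s‖ * ‖δ s‖) =
          x⁻¹ * (x * ‖b s‖ - ‖δ s‖) ^ 2 := by
        field_simp
        ring
      have : 0 ≤ x⁻¹ * (x * ‖b s‖ - ‖δ s‖) ^ 2 := by positivity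
      linarith
    rw [abs_le]
    constructor
    · rcases le_total ‖δ s‖ ‖b s‖ with h | h
      · nlinarith
      · nlinarith
    · nlinarith
  unfold nrm
  rw [← Finset.sum_sub_distrib]
  refine (Finset.abs_sum_le_sum_abs _ _).trans ((Finset.sum_le_sum fun s _ => key s).trans ?_)
  rw [Finset.sum_add_distrib, Finset.sum_add_distrib, ← Finset.mul_sum, ← Finset.mul_sum]
  unfold nrm at hb hδ
  rw [hb]
  have h7 : x⁻¹ * ∑ s, ‖δ s‖ ^ 2 ≤ x := by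
    rw [inv_mul_le_iff₀ hx]
    nlinarith [hδ]
  linarith

/-- The reduced states of a translation invariant unit vector and of a nearby vector are close. -/
theorem close_near (d : ℕ) (R : Finset (ℤ × ℤ)) : ∃ r : ℕ, 0 < r ∧ ∀ (L : ℕ) [NeZero L], r ≤ L →
    ∀ Ψ : Conf d L → ℂ, nrm Ψ = 1 → TransInv Ψ → ∀ (ψ : Conf d L → ℂ) (x : ℝ), 0 < x → x ≤ 1 / 4 →
      nrm (ψ - Ψ) ≤ x ^ 2 → nrm ψ ≠ 0 ∧ Close R Ψ ψ (5 * x) := by
  obtain ⟨r, a, hr, hB⟩ := Pool.Agent.Y70.PE.region d R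
  refine ⟨r, hr, ?_⟩
  intro L _ hL Ψ hΨ hTI ψ x hx hx4 hn
  have hψ : ψ = fun s => Ψ s + (ψ - Ψ) s := by
    funext s
    simp
  have h1 := nrm_add_near Ψ (ψ - Ψ) x hx hΨ hn
  rw [← hψ] at h1
  have hx2 : x ^ 2 + 2 * x ≤ 9 / 16 := by nlinarith
  have h1' := abs_le.1 h1
  have hpos : 0 < nrm ψ := by linarith [h1'.1]
  refine ⟨hpos.ne', ?_⟩
  intro u v B hBc
  obtain ⟨B', hB', hBB⟩ := hB B hBc
  rw [hBB L hL Ψ u, hBB L hL ψ v, hΨ]
  have hT1 := transInv_expec Ψ hΨ hTI r (u.1 + (a.1 : ZMod L), u.2 + (a.2 : ZMod L)) B'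
  have hT2 := transInv_expec Ψ hΨ hTI r (v.1 + (a.1 : ZMod L), v.2 + (a.2 : ZMod L)) B'
  rw [hT1, ← hT2]
  have h2 := expec_near hL (v.1 + (a.1 : ZMod L), v.2 + (a.2 : ZMod L)) B' hB' Ψ (ψ - Ψ) x hx hΨ hn
  rw [← hψ] at h2
  have h3 := Pool.Agent.Y65.PE.bound d L r hL ψ (v.1 + (a.1 : ZMod L), v.2 + (a.2 : ZMod L)) B' hB'
  set P := expec Ψ (v.1 + (a.1 : ZMod L), v.2 + (a.2 : ZMod L)) B'
  set Q := expec ψ (v.1 + (a.1 : ZMod L), v.2 + (a.2 : ZMod L)) B'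
  set n := nrm ψ
  have hnc : (n : ℂ) ≠ 0 := by exact_mod_cast hpos.ne'
  have e : P / ((1 : ℝ) : ℂ) - Q / (n : ℂ) = (P - Q) + Q * ((n : ℂ) - 1) / (n : ℂ) := by
    rw [Complex.ofReal_one]
    field_simp
    ring
  rw [e]
  have h4 : ‖Q * ((n : ℂ) - 1) / (n : ℂ)‖ ≤ x ^ 2 + 2 * x := by
    rw [norm_div, norm_mul, Complex.norm_real, Real.norm_eq_abs, abs_of_pos hpos,
      div_le_iff₀ hpos]
    have e2 : ‖(n : ℂ) - 1‖ = |n - 1| := by
      have : (n : ℂ) - 1 = ((n - 1 : ℝ) : ℂ) := by push_cast; ring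
      rw [this, Complex.norm_real, Real.norm_eq_abs]
    rw [e2]
    calc ‖Q‖ * |n - 1| ≤ n * (x ^ 2 + 2 * x) :=
          mul_le_mul h3 h1 (abs_nonneg _) hpos.le
      _ = (x ^ 2 + 2 * x) * n := by ring
  have h5 : ‖P - Q‖ ≤ x ^ 2 + 2 * x := by rw [norm_sub_rev]; exact h2
  have h6 := norm_add_le (P - Q) (Q * ((n : ℂ) - 1) / (n : ℂ))
  nlinarith

section ti

open Pool.Agent.TH235

variable {d L R : ℕ}

lemma sh_shift (a u : PP.Site L) (x : Fin R × Fin R) : PP.sh u x + a = PP.sh (u + a) x := by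
  unfold PP.sh
  refine Prod.ext ?_ ?_
  · show (u.1 + ((x.1 : ℕ) : ZMod L)) + a.1 = (u.1 + a.1) + _
    ring
  · show (u.2 + ((x.2 : ℕ) : ZMod L)) + a.2 = (u.2 + a.2) + _
    ring

lemma term_shift (h : PP.BoxOp d R) (a u : PP.Site L) (s t : PP.Site L → Fin d) :
    PP.term h u (fun w => s (w + a)) (fun w => t (w + a)) = PP.term h (u + a) s t := by
  unfold PP.term
  simp only [sh_shift]
  have e : (∀ v, (∀ x : Fin R × Fin R, PP.sh u x ≠ v) → s (v + a) = t (v + a)) ↔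
      ∀ v, (∀ x : Fin R × Fin R, PP.sh (u + a) x ≠ v) → s v = t v := by
    constructor
    · intro h1 v hv
      have h2 := h1 (v - a) (by
        intro x hx
        apply hv x
        rw [← sh_shift, hx, sub_add_cancel])
      rwa [sub_add_cancel] at h2
    · intro h1 v hv
      apply h1
      intro x hx
      apply hv x
      rw [← sh_shift] at hx
      exact add_right_cancel hx
  simp only [e]

lemma ham_mulVec_shift [NeZero L] (h : PP.BoxOp d R) (a : PP.Site L) (Ψ : (PP.Site L → Fin d) → ℂ)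
    (s : PP.Site L → Fin d) :
    (PP.ham h L).mulVec (fun t => Ψ (fun w => t (w + a))) s =
      (PP.ham h L).mulVec Ψ (fun w => s (w + a)) := by
  have hH : ∀ s t : PP.Site L → Fin d, PP.ham h L (fun w => s (w + a)) (fun w => t (w + a)) =
      PP.ham h L s t := by
    intro s t
    unfold PP.ham
    rw [Matrix.sum_apply, Matrix.sum_apply]
    rw [← Equiv.sum_comp (Equiv.addRight a) (fun u : PP.Site L => PP.term h u s t)]
    refine Finset.sum_congr rfl fun u _ => ?_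
    exact term_shift h a u s t
  simp only [Matrix.mulVec, dotProduct]
  rw [← Equiv.sum_comp (shiftE a : Conf d L ≃ Conf d L)
    (fun t : Conf d L => PP.ham h L (fun w => s (w + a)) t * Ψ t)]
  refine Finset.sum_congr rfl fun t _ => ?_
  have e : (shiftE a : Conf d L ≃ Conf d L) t = fun w => t (w + a) := rfl
  rw [e, hH]

/-- Unique gapped ground states are translation invariant up to phases. -/
theorem ti_of_gapped [NeZero L] (h : PP.BoxOp d R) (Δ : ℝ) (Ψ : (PP.Site L → Fin d) → ℂ)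
    (hg : PP.IsGappedGround (PP.ham h L) Δ Ψ) : TransInv Ψ := by
  obtain ⟨E, h1, h2, -⟩ := hg
  intro a
  obtain ⟨c, hc⟩ := h2 (fun t => Ψ (fun w => t (w + a))) (by
    funext s
    rw [ham_mulVec_shift, h1]
    rfl)
  refine ⟨c, fun s => ?_⟩
  have := congrFun hc s
  simpa using this

end ti

end Pool.Agent.Q204.LP
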